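import Pool.Agent.Y744.NB.All
import Pool.Agent.Y744.NB.Tools

/-!
# Loss of boundedness in a nonlocal two-component reaction system, in every dimension `N ≥ 2`

`L₁ = J_K` with any kernel `K`, `L₂ = -Δ`, and any reaction term `f ≥ 0` which is superlinear in the
sense that `f > 0` near `∞`, `r / f(r) → 0` and `∫^∞ dr / f(r) < ∞`.
-/

set_option autoImplicit false

open MeasureTheory Set Filter Metric
open scoped ContDiff Topology

namespace Pool.Agent.Results.MP_360b3f_an.EveryDimension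

/-- Euclidean space of dimension `N`. -/
abbrev Space (N : ℕ) : Type := EuclideanSpace ℝ (Fin N)

/-- `J_K w (x) = ⟨K⟩ w(x) - (K * w)(x)`, where `⟨K⟩ = ∫ K`. -/
noncomputable def nonlocalOp {N : ℕ} (K w : Space N → ℝ) (x : Space N) : ℝ :=
  (∫ y, K y) * w x - ∫ y, K y * w (x - y)

/-- `(u, v)` is a (weak) solution on `[0, T] × ℝ^N`, with `u` bounded on `[0, T] × ℝ^N`, of
`u_t + J_K u = v f(u)`, `v_t - Δ v = - v f(u)`, `u(0, ·) = u₀`, `v(0, ·) = 1`.
Here `u t x` stands for `u(t, x)`. The functions are measurable, `0 ≤ u ≤ M` for some constant `M`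
and `0 ≤ v ≤ 1`; the first equation is integrated in time and holds for every `t ∈ [0, T]` and
almost every `x`, the second one is integrated in time and tested with every smooth compactly
supported function of `x`. Every classical or mild solution with bounded `u` satisfies this. -/
structure IsBoundedSolution {N : ℕ} (K : Space N → ℝ) (f : ℝ → ℝ) (u₀ : Space N → ℝ) (T : ℝ)
    (u v : ℝ → Space N → ℝ) : Prop where
  measurable_u : Measurable (Function.uncurry u)
  measurable_v : Measurable (Function.uncurry v)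
  u_nonneg : ∀ t ∈ Icc 0 T, ∀ x, 0 ≤ u t x
  u_bounded : ∃ M : ℝ, ∀ t ∈ Icc 0 T, ∀ x, u t x ≤ M
  v_mem : ∀ t ∈ Icc 0 T, ∀ x, v t x ∈ Icc (0:ℝ) 1
  eq_u : ∀ t ∈ Icc 0 T, ∀ᵐ x, u t x
    = u₀ x + ∫ s in (0:ℝ)..t, (v s x * f (u s x) - nonlocalOp K (u s) x)
  eq_v : ∀ φ : Space N → ℝ, ContDiff ℝ ∞ φ → HasCompactSupport φ → ∀ t ∈ Icc 0 T,
    ∫ x, v t x * φ x = (∫ x, φ x)
      + ∫ s in (0:ℝ)..t, ∫ x, (v s x * Laplacian.laplacian φ x - v s x * f (u s x) * φ x)

/-- Let `N ≥ 2`, let `K ≥ 0` be a continuous compactly supported kernel on `ℝ^N` and let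
`f : [0, ∞) → [0, ∞)` be continuous with `f > 0` on `[a, ∞)`, `∫_a^∞ dr / f(r) < ∞` and
`r / f(r) → 0` as `r → ∞`. Then for every `T > 0` there is a bounded measurable function `u₀ ≥ 0`
with compact support for which the system with `L₁ = J_K`, `L₂ = -Δ` has no solution on `[0, T]`
with `u` bounded on `[0, T] × ℝ^N`. -/
theorem result : ∀ N : ℕ, 2 ≤ N → ∀ K : Space N → ℝ, Continuous K → HasCompactSupport K →
    (∀ x, 0 ≤ K x) → ∀ f : ℝ → ℝ, ContinuousOn f (Ici 0) → (∀ r, 0 ≤ r → 0 ≤ f r) →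
    ∀ a : ℝ, 0 ≤ a → (∀ r, a ≤ r → 0 < f r) → IntegrableOn (fun r => 1 / f r) (Ioi a) →
    Tendsto (fun r => r / f r) atTop (𝓝 0) → ∀ T : ℝ, 0 < T →
    ∃ u₀ : Space N → ℝ, Measurable u₀ ∧ HasCompactSupport u₀ ∧ (∀ x, 0 ≤ u₀ x) ∧
      (∃ A, ∀ x, u₀ x ≤ A) ∧ ¬ ∃ u v : ℝ → Space N → ℝ, IsBoundedSolution K f u₀ T u v := by
  intro N hN K hK hKc hK0 f hf hf0 a ha hfa hfi hfl T hT
  set g : ℝ → ℝ := fun r => f (max r 0) with hg
  have hge : ∀ r, 0 ≤ r → g r = f r := fun r hr => by simp only [hg, max_eq_left hr]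
  have hgc : Continuous g := by
    have h1 : Continuous fun r : ℝ => (⟨max r 0, mem_Ici.2 (le_max_right r 0)⟩ : Ici (0:ℝ)) :=
      Continuous.subtype_mk (by fun_prop) _
    exact (continuousOn_iff_continuous_restrict.1 hf).comp h1
  obtain ⟨S, A, hA, hS1, hS2, hS3⟩ := Pool.Agent.Y744.NB.main Pool.Agent.Y744.NB.lap0
    Pool.Agent.Y744.NB.rad N hN K ⟨hK, hKc, hK0⟩ g a T hgc (fun r => hf0 _ (le_max_right _ _))
    (fun r hr => by rw [hge r (ha.trans hr)]; exact hfa r hr)
    (hfi.congr_fun (fun r hr => by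
      have h1 : 0 ≤ r := ha.trans (le_of_lt hr)
      simp only [hge r h1]) measurableSet_Ioi)
    (hfl.congr' (by
      filter_upwards [eventually_ge_atTop (0:ℝ)] with r hr
      rw [hge r hr])) hT
  refine ⟨S.indicator fun _ => A, measurable_const.indicator hS1, ?_, ?_, ⟨A, ?_⟩, ?_⟩
  · refine HasCompactSupport.intro (isCompact_closedBall (0 : Space N) 2) fun x hx => ?_
    exact indicator_of_notMem (fun h => hx (hS2 h)) _
  · exact fun x => indicator_nonneg (fun _ _ => hA.le) x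
  · exact fun x => indicator_le_self' (fun _ _ => hA.le) x
  · rintro ⟨u, v, h⟩
    obtain ⟨M, hM⟩ := h.u_bounded
    refine hS3 M u v ⟨h.measurable_u, h.measurable_v, h.u_nonneg, hM, h.v_mem, ?_, ?_⟩
    · intro t ht
      filter_upwards [h.eq_u t ht] with x hx
      rw [hx]
      congr 1
      refine intervalIntegral.integral_congr fun s hs => ?_
      rw [uIcc_of_le ht.1] at hs
      have hs' : s ∈ Icc 0 T := ⟨hs.1, hs.2.trans ht.2⟩
      simp only [hge _ (h.u_nonneg s hs' x)]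
      rfl
    · intro φ hφ hφc t ht
      rw [h.eq_v φ hφ hφc t ht]
      congr 1
      refine intervalIntegral.integral_congr fun s hs => ?_
      rw [uIcc_of_le ht.1] at hs
      have hs' : s ∈ Icc 0 T := ⟨hs.1, hs.2.trans ht.2⟩
      simp only [hge _ (h.u_nonneg s hs' _)]

end Pool.Agent.Results.MP_360b3f_an.EveryDimension
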